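import Mathlib

/-!
# Construction for MP_1dbcb3_an

All the proofs for the hand-in `SummableCounterexample`.  The function `u` is defined through
the zero digits of `x` in a fast growing mixed radix expansion; its difference quotients avoid
the intervals `(a_j, 3 a_j)` with `a_j → ∞`.
-/

open MeasureTheory Set Filter Topology
open scoped ENNReal

namespace Pool.Agent.Lib.MP_1dbcb3_an

/-! ### The sequences -/

/-- the pair `(h_j, N_j)` -/
def sq : ℕ → ℕ × ℕ
  | 0 => (1, 1)
  | (j + 1) =>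
      ((4 * (sq j).1 * (sq j).2) ^ (j + 2), (sq j).2 * (4 * (sq j).1 * (sq j).2) ^ (j + 1))

/-- the values `h_j` of the function -/
def hh (j : ℕ) : ℕ := (sq j).1
/-- the scales: `1 / N_j` -/
def NN (j : ℕ) : ℕ := (sq j).2
/-- auxiliary quantity `4 h_j N_j` -/
def AA (j : ℕ) : ℕ := 4 * hh j * NN j
/-- the radices: `N_{j+1} = N_j M_j` -/
def MM (j : ℕ) : ℕ := AA j ^ (j + 1)

lemma hh_zero : hh 0 = 1 := rfl
lemma NN_zero : NN 0 = 1 := rfl
lemma hh_succ (j : ℕ) : hh (j + 1) = AA j ^ (j + 2) := rfl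
lemma NN_succ (j : ℕ) : NN (j + 1) = NN j * MM j := rfl

lemma hh_succ' (j : ℕ) : hh (j + 1) = 4 * hh j * NN (j + 1) := by
  rw [hh_succ, NN_succ, pow_succ']
  unfold MM AA
  ring

lemma pos_aux (j : ℕ) : 0 < hh j ∧ 0 < NN j := by
  induction j with
  | zero => exact ⟨by rw [hh_zero]; norm_num, by rw [NN_zero]; norm_num⟩
  | succ n ih =>
    obtain ⟨h1, h2⟩ := ih
    have hA : 0 < AA n := by unfold AA; positivity
    refine ⟨by rw [hh_succ]; positivity, ?_⟩
    rw [NN_succ]; unfold MM; positivity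

lemma hh_pos (j : ℕ) : 0 < hh j := (pos_aux j).1
lemma NN_pos (j : ℕ) : 0 < NN j := (pos_aux j).2
lemma AA_pos (j : ℕ) : 0 < AA j := by
  have := hh_pos j
  have := NN_pos j
  unfold AA; positivity
lemma MM_pos (j : ℕ) : 0 < MM j := by
  have := AA_pos j
  unfold MM; positivity

lemma AA_ge (j : ℕ) : 4 ^ (j + 1) ≤ AA j := by
  induction j with
  | zero => simp [AA, hh_zero, NN_zero]
  | succ n ih =>
    have h1 : AA (n + 1) = 4 * hh (n + 1) * NN (n + 1) := rfl
    have h2 : AA n ≤ hh (n + 1) := by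
      rw [hh_succ]
      exact Nat.le_self_pow (by omega) _
    have h3 : 1 ≤ NN (n + 1) := NN_pos _
    calc 4 ^ (n + 1 + 1) = 4 * 4 ^ (n + 1) := by ring
      _ ≤ 4 * AA n := by omega
      _ ≤ 4 * hh (n + 1) := by omega
      _ = 4 * hh (n + 1) * 1 := by ring
      _ ≤ 4 * hh (n + 1) * NN (n + 1) := Nat.mul_le_mul_left _ h3
      _ = AA (n + 1) := h1.symm

lemma MM_ge (j : ℕ) : 4 ^ (j + 1) ≤ MM j :=
  (AA_ge j).trans (Nat.le_self_pow (by omega) _)

/-- `a_j = h_j N_{j+1}`, left end of the gap -/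
def aa (j : ℕ) : ℕ := hh j * NN (j + 1)

lemma aa_pos (j : ℕ) : 0 < aa j := Nat.mul_pos (hh_pos _) (NN_pos _)

lemma hh_succ_aa (j : ℕ) : hh (j + 1) = 4 * aa j := by
  rw [hh_succ']; unfold aa; ring

lemma hh_le_aa (j : ℕ) : hh j ≤ aa j := by
  unfold aa
  exact Nat.le_mul_of_pos_right _ (NN_pos _)

lemma aa_succ_ge (j : ℕ) : 4 * aa j ≤ aa (j + 1) := by
  rw [← hh_succ_aa]; exact hh_le_aa _

lemma aa_mono : Monotone aa :=
  monotone_nat_of_le_succ (fun j => by have := aa_succ_ge j; omega)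

lemma hh_mono_strict (j : ℕ) : hh j + 3 * aa j ≤ hh (j + 1) := by
  rw [hh_succ_aa]
  have := hh_le_aa j
  omega

lemma hh_mono : Monotone hh :=
  monotone_nat_of_le_succ (fun j => by have := hh_mono_strict j; omega)

/-! ### The sets -/

/-- digit sets: `E 0` is everything; `x ∈ E (j+1)` iff the `(j+1)`-st mixed radix digit of `x`
vanishes -/
def EE : ℕ → Set ℝ
  | 0 => univ
  | (j + 1) => {x | (MM j : ℤ) ∣ ⌊x * NN (j + 1)⌋}

/-- the points for which `k` is the last index with `x ∈ E k` -/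
def FF (k : ℕ) : Set ℝ := EE k ∩ ⋂ (l : ℕ) (_ : k < l), (EE l)ᶜ

lemma mem_FF {k : ℕ} {x : ℝ} : x ∈ FF k ↔ x ∈ EE k ∧ ∀ l, k < l → x ∉ EE l := by
  simp [FF]

lemma measurableSet_EE (k : ℕ) : MeasurableSet (EE k) := by
  cases k with
  | zero => exact MeasurableSet.univ
  | succ j =>
    have h1 : Measurable (fun x : ℝ => ⌊x * NN (j + 1)⌋) :=
      (measurable_id.mul_const _).floor
    exact h1 (MeasurableSpace.measurableSet_top (s := {n : ℤ | (MM j : ℤ) ∣ n}))

lemma measurableSet_FF (k : ℕ) : MeasurableSet (FF k) :=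
  (measurableSet_EE k).inter
    (MeasurableSet.iInter fun l => MeasurableSet.iInter fun _ => (measurableSet_EE l).compl)

lemma FF_disj {i j : ℕ} {x : ℝ} (hi : x ∈ FF i) (hj : x ∈ FF j) : i = j := by
  rw [mem_FF] at hi hj
  rcases lt_trichotomy i j with h | h | h
  · exact absurd hj.1 (hi.2 j h)
  · exact h
  · exact absurd hi.1 (hj.2 i h)

/-- The function: `u = h_k` on `F_k` (and `0` elsewhere) -/
noncomputable def uu (x : ℝ) : ℝ :=
  (∑' k, (FF k).indicator (fun _ => ((hh k : ℕ) : ℝ≥0∞)) x).toReal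

lemma measurable_uu : Measurable uu := by
  apply Measurable.ennreal_toReal
  apply Measurable.tsum
  intro k
  exact measurable_const.indicator (measurableSet_FF k)

lemma uu_eq {k : ℕ} {x : ℝ} (hx : x ∈ FF k) : uu x = hh k := by
  unfold uu
  rw [tsum_eq_single k]
  · simp [hx]
  · intro j hj
    have : x ∉ FF j := fun h => hj (FF_disj h hx)
    simp [this]

/-! ### Separation -/

lemma sep_aux {j : ℕ} {x y : ℝ} (hlt : ⌊x * NN j⌋ < ⌊y * NN j⌋) (hy : y ∉ EE (j + 1)) :
    1 ≤ (y - x) * NN (j + 1) := by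
  have hM : (0 : ℝ) < MM j := by exact_mod_cast MM_pos j
  have hN : ((NN (j + 1) : ℕ) : ℝ) = NN j * MM j := by rw [NN_succ]; push_cast; ring
  set m := ⌊y * NN j⌋ with hm
  have h1 : x * NN j < m := by
    have := Int.lt_floor_add_one (x * NN j)
    have h2 : ((⌊x * NN j⌋ : ℤ) : ℝ) + 1 ≤ m := by exact_mod_cast hlt
    linarith
  have h2 : (m : ℝ) ≤ y * NN j := Int.floor_le _
  have h3 : ((m * MM j : ℤ) : ℝ) ≤ y * NN (j + 1) := by
    push_cast
    rw [hN]
    nlinarith
  have h4 : m * MM j ≤ ⌊y * NN (j + 1)⌋ := Int.le_floor.mpr h3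
  have h5 : m * MM j ≠ ⌊y * NN (j + 1)⌋ := by
    intro h
    apply hy
    show (MM j : ℤ) ∣ ⌊y * NN (j + 1)⌋
    rw [← h]
    exact Dvd.intro_left _ rfl
  have h6 : m * MM j + 1 ≤ ⌊y * NN (j + 1)⌋ := by
    rcases lt_or_eq_of_le h4 with h | h
    · exact h
    · exact absurd h h5
  have h7 : ((m * MM j + 1 : ℤ) : ℝ) ≤ y * NN (j + 1) := Int.le_floor.mp h6
  push_cast at h7
  have h8 : x * NN (j + 1) < m * MM j := by
    rw [hN]
    nlinarith
  linarith

lemma sep {i j : ℕ} {x y : ℝ} (hij : i < j) (hx : x ∈ FF i) (hy : y ∈ FF j) :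
    1 ≤ |y - x| * NN (j + 1) := by
  rw [mem_FF] at hx hy
  obtain ⟨k, rfl⟩ : ∃ k, j = k + 1 := ⟨j - 1, by omega⟩
  have hne : ⌊x * NN (k + 1)⌋ ≠ ⌊y * NN (k + 1)⌋ := by
    intro h
    apply hx.2 (k + 1) hij
    have : (MM k : ℤ) ∣ ⌊y * NN (k + 1)⌋ := hy.1
    show (MM k : ℤ) ∣ ⌊x * NN (k + 1)⌋
    rw [h]; exact this
  rcases lt_or_gt_of_ne hne with h | h
  · have h1 := sep_aux h (hy.2 (k + 1 + 1) (by omega))
    refine h1.trans ?_
    exact mul_le_mul_of_nonneg_right (le_abs_self _) (Nat.cast_nonneg _)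
  · have h1 := sep_aux h (hx.2 (k + 1 + 1) (by omega))
    refine h1.trans ?_
    rw [abs_sub_comm]
    exact mul_le_mul_of_nonneg_right (le_abs_self _) (Nat.cast_nonneg _)

/-- the good points -/
def GG : Set ℝ := ⋃ k, FF k

/-- The set of slopes of `u` over good points of `(0,1)`, together with `0` -/
def SS : Set ℝ :=
  {s | s = 0 ∨ ∃ x ∈ GG ∩ Ioo 0 1, ∃ y ∈ GG ∩ Ioo 0 1, s = |uu y - uu x| / |y - x|}

lemma slope_aux {i j : ℕ} {x y : ℝ} (hij : i < j) (hx : x ∈ FF i) (hy : y ∈ FF j)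
    (hx' : x ∈ Ioo (0 : ℝ) 1) (hy' : y ∈ Ioo (0 : ℝ) 1) :
    (3 * aa (j - 1) : ℝ) ≤ |uu y - uu x| / |y - x| ∧ |uu y - uu x| / |y - x| ≤ aa j := by
  have hsep := sep hij hx hy
  have hpos : 0 < |y - x| := by
    by_contra h
    have h0 : |y - x| = 0 := le_antisymm (not_lt.mp h) (abs_nonneg _)
    rw [h0] at hsep
    norm_num at hsep
  have hlt1 : |y - x| ≤ 1 := by
    rw [abs_le]; constructor <;> linarith [hx'.1, hx'.2, hy'.1, hy'.2]
  rw [uu_eq hx, uu_eq hy]
  obtain ⟨k, rfl⟩ : ∃ k, j = k + 1 := ⟨j - 1, by omega⟩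
  have h1 : hh i ≤ hh k := hh_mono (by omega)
  have h2 : hh k + 3 * aa k ≤ hh (k + 1) := hh_mono_strict k
  have h1' : (hh i : ℝ) ≤ hh k := by exact_mod_cast h1
  have h2' : (hh k : ℝ) + 3 * aa k ≤ hh (k + 1) := by exact_mod_cast h2
  have h3 : (0 : ℝ) ≤ aa k := Nat.cast_nonneg _
  have habs : |(hh (k + 1) : ℝ) - hh i| = (hh (k + 1) : ℝ) - hh i := by
    apply abs_of_nonneg; linarith
  rw [habs]
  have hi0 : (0 : ℝ) ≤ hh i := Nat.cast_nonneg _
  constructor
  · rw [le_div_iff₀ hpos]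
    simp only [Nat.add_sub_cancel]
    nlinarith
  · rw [div_le_iff₀ hpos]
    have h4 : (aa (k + 1) : ℝ) = hh (k + 1) * NN (k + 1 + 1) := by
      unfold aa; push_cast; ring
    rw [h4]
    have h5 : (0 : ℝ) ≤ hh (k + 1) := Nat.cast_nonneg _
    nlinarith

lemma gap {s : ℝ} (hs : s ∈ SS) (j : ℕ) : s ≤ aa j ∨ (3 * aa j : ℝ) ≤ s := by
  rcases hs with h | ⟨x, ⟨hxG, hx⟩, y, ⟨hyG, hy⟩, rfl⟩
  · left; rw [h]; exact Nat.cast_nonneg _
  · obtain ⟨i, hi⟩ := mem_iUnion.mp hxG
    obtain ⟨k, hk⟩ := mem_iUnion.mp hyG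
    have key : ∀ {i k : ℕ} {x y : ℝ}, i < k → x ∈ FF i → y ∈ FF k → x ∈ Ioo (0 : ℝ) 1 →
        y ∈ Ioo (0 : ℝ) 1 →
        |uu y - uu x| / |y - x| ≤ aa j ∨ (3 * aa j : ℝ) ≤ |uu y - uu x| / |y - x| := by
      intro i k x y hik hxi hyk hx hy
      obtain ⟨h1, h2⟩ := slope_aux hik hxi hyk hx hy
      rcases Nat.lt_or_ge j k with h | h
      · right
        refine le_trans ?_ h1
        have : aa j ≤ aa (k - 1) := aa_mono (by omega)
        have : (aa j : ℝ) ≤ aa (k - 1) := by exact_mod_cast this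
        linarith
      · left
        refine h2.trans ?_
        have : aa k ≤ aa j := aa_mono h
        exact_mod_cast this
    rcases lt_trichotomy i k with h | h | h
    · exact key h hi hk hx hy
    · left
      subst h
      rw [uu_eq hi, uu_eq hk]; simp
    · rw [abs_sub_comm (uu y), abs_sub_comm y]
      exact key h hk hi hy hx

/-! ### omega -/

/-- the function `ω` -/
noncomputable def om (μ : ℝ) : ℝ := Metric.infDist μ SS + |μ| / (1 + μ ^ 2)

lemma SS_nonempty : (SS).Nonempty := ⟨0, Or.inl rfl⟩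

lemma continuous_om : Continuous om := by
  unfold om
  apply (Metric.continuous_infDist_pt _).add
  apply continuous_abs.div (by fun_prop)
  intro x
  positivity

lemma om_pos {μ : ℝ} (h : 0 < μ) : 0 < om μ := by
  unfold om
  have h1 : 0 ≤ Metric.infDist μ SS := Metric.infDist_nonneg
  have h2 : 0 < |μ| / (1 + μ ^ 2) := by positivity
  linarith

lemma om_zero : om 0 = 0 := by
  unfold om
  have : Metric.infDist (0 : ℝ) SS = 0 := Metric.infDist_zero_of_mem (Or.inl rfl)
  simp [this]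

lemma om_of_mem {s : ℝ} (hs : s ∈ SS) : om s = |s| / (1 + s ^ 2) := by
  unfold om
  rw [Metric.infDist_zero_of_mem hs, zero_add]

lemma om_nonneg (μ : ℝ) : 0 ≤ om μ := by
  unfold om
  have h1 : 0 ≤ Metric.infDist μ SS := Metric.infDist_nonneg
  positivity

lemma om_ge {j : ℕ} {μ : ℝ} (h : μ ∈ Ioo (3 / 2 * aa j : ℝ) (5 / 2 * aa j)) :
    (aa j : ℝ) / 2 ≤ om μ := by
  have h1 : (aa j : ℝ) / 2 ≤ Metric.infDist μ SS := by
    rw [Metric.le_infDist SS_nonempty]
    intro s hs
    rw [Real.dist_eq]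
    rcases gap hs j with h2 | h2
    · refine le_trans ?_ (le_abs_self _)
      linarith [h.1]
    · rw [abs_sub_comm]
      refine le_trans ?_ (le_abs_self _)
      linarith [h.2]
  unfold om
  have h2 : 0 ≤ |μ| / (1 + μ ^ 2) := by positivity
  linarith

lemma aa_ge_one (j : ℕ) : (1 : ℝ) ≤ aa j := by exact_mod_cast aa_pos j

lemma om_integral : ∫⁻ μ in Ioi (1 : ℝ), ENNReal.ofReal (om μ / μ ^ 2) = ⊤ := by
  have hsub : (⋃ j, Ioo (3 / 2 * aa j : ℝ) (5 / 2 * aa j)) ⊆ Ioi (1 : ℝ) := by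
    intro x hx
    obtain ⟨j, hj⟩ := mem_iUnion.mp hx
    have := aa_ge_one j
    have := hj.1
    simp only [mem_Ioi]
    linarith
  have hdisj : Pairwise (Function.onFun Disjoint
      (fun j => Ioo (3 / 2 * aa j : ℝ) (5 / 2 * aa j))) := by
    have key : ∀ i j : ℕ, i < j → Disjoint (Ioo (3 / 2 * aa i : ℝ) (5 / 2 * aa i))
        (Ioo (3 / 2 * aa j : ℝ) (5 / 2 * aa j)) := by
      intro i j hij
      rw [Set.disjoint_left]
      intro x hx1 hx2
      have h1 : aa (i + 1) ≤ aa j := aa_mono hij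
      have h2 := aa_succ_ge i
      have h3 : (4 * aa i : ℝ) ≤ aa j := by exact_mod_cast h2.trans h1
      have h4 := hx1.2
      have h5 := hx2.1
      have := aa_ge_one i
      linarith
    intro i j hij
    rcases lt_or_gt_of_ne hij with h | h
    · exact key i j h
    · exact (key j i h).symm
  rw [eq_top_iff]
  calc (⊤ : ℝ≥0∞) = ∑' _ : ℕ, ENNReal.ofReal (2 / 25) := by
        rw [ENNReal.tsum_const_eq_top_of_ne_zero]
        rw [Ne, ENNReal.ofReal_eq_zero]
        norm_num
    _ ≤ ∑' j : ℕ, ∫⁻ μ in Ioo (3 / 2 * aa j : ℝ) (5 / 2 * aa j),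
          ENNReal.ofReal (om μ / μ ^ 2) := by
        apply ENNReal.tsum_le_tsum
        intro j
        have ha := aa_ge_one j
        calc ENNReal.ofReal (2 / 25)
            = ENNReal.ofReal (2 / (25 * aa j)) * ENNReal.ofReal (aa j) := by
              rw [← ENNReal.ofReal_mul (by positivity)]
              congr 1
              field_simp
          _ = ∫⁻ _ in Ioo (3 / 2 * aa j : ℝ) (5 / 2 * aa j),
                ENNReal.ofReal (2 / (25 * aa j)) := by
              rw [setLIntegral_const, Real.volume_Ioo]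
              congr 2
              ring
          _ ≤ _ := by
              apply setLIntegral_mono' measurableSet_Ioo
              intro μ hμ
              apply ENNReal.ofReal_le_ofReal
              have h1 := om_ge hμ
              have hμ0 : 0 < μ := by have := hμ.1; linarith
              rw [div_le_div_iff₀ (by positivity) (by positivity)]
              have h2 : μ ^ 2 ≤ 25 / 4 * (aa j) ^ 2 := by
                have := hμ.2
                nlinarith
              have h3 : (aa j : ℝ) / 2 * (25 * aa j) ≤ om μ * (25 * aa j) :=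
                mul_le_mul_of_nonneg_right h1 (by positivity)
              nlinarith
    _ = ∫⁻ μ in ⋃ j, Ioo (3 / 2 * aa j : ℝ) (5 / 2 * aa j), ENNReal.ofReal (om μ / μ ^ 2) := by
        rw [lintegral_iUnion (fun j => measurableSet_Ioo) hdisj]
    _ ≤ _ := lintegral_mono_set hsub

/-! ### measure of the digit sets -/

lemma volume_EE_le (j : ℕ) :
    volume (EE (j + 1) ∩ Ico (0 : ℝ) 1) ≤ ENNReal.ofReal (1 / MM j) := by
  have hN : (0 : ℝ) < NN (j + 1) := by exact_mod_cast NN_pos _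
  have hNj : (0 : ℝ) < NN j := by exact_mod_cast NN_pos _
  have hM : (0 : ℝ) < MM j := by exact_mod_cast MM_pos _
  have hNN : ((NN (j + 1) : ℕ) : ℝ) = NN j * MM j := by rw [NN_succ]; push_cast; ring
  have hsub : EE (j + 1) ∩ Ico (0 : ℝ) 1 ⊆
      ⋃ m ∈ Finset.range (NN j), Ico ((m : ℝ) / NN j) ((m : ℝ) / NN j + 1 / NN (j + 1)) := by
    rintro x ⟨hx, hx0, hx1⟩
    obtain ⟨c, hc⟩ : (MM j : ℤ) ∣ ⌊x * NN (j + 1)⌋ := hx
    have h1 : (⌊x * NN (j + 1)⌋ : ℝ) ≤ x * NN (j + 1) := Int.floor_le _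
    have h2 : x * NN (j + 1) < ⌊x * NN (j + 1)⌋ + 1 := Int.lt_floor_add_one _
    rw [hc] at h1 h2
    push_cast at h1 h2
    have hc0 : 0 ≤ c := by
      have h3 : 0 ≤ ⌊x * NN (j + 1)⌋ := Int.floor_nonneg.mpr (by positivity)
      rw [hc] at h3
      have hMZ : (0 : ℤ) < MM j := by exact_mod_cast MM_pos j
      exact nonneg_of_mul_nonneg_right h3 hMZ
    obtain ⟨m, rfl⟩ := Int.eq_ofNat_of_zero_le hc0
    push_cast at h1 h2
    have hmlt : m < NN j := by
      have h4 : (MM j : ℝ) * m < NN j * MM j := by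
        calc (MM j : ℝ) * m ≤ x * NN (j + 1) := h1
          _ < 1 * NN (j + 1) := by exact mul_lt_mul_of_pos_right hx1 hN
          _ = NN j * MM j := by rw [hNN]; ring
      have h5 : (m : ℝ) < NN j := by
        by_contra h
        push Not at h
        nlinarith
      exact_mod_cast h5
    simp only [mem_iUnion, Finset.mem_range]
    refine ⟨m, hmlt, ?_⟩
    constructor
    · rw [div_le_iff₀ hNj]
      have : (MM j : ℝ) * m ≤ (x * NN j) * MM j := by
        calc (MM j : ℝ) * m ≤ x * NN (j + 1) := h1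
          _ = (x * NN j) * MM j := by rw [hNN]; ring
      nlinarith
    · have : (m : ℝ) / NN j + 1 / NN (j + 1) = (MM j * m + 1) / NN (j + 1) := by
        rw [hNN]; field_simp
      rw [this, lt_div_iff₀ hN]
      exact h2
  calc volume (EE (j + 1) ∩ Ico (0 : ℝ) 1)
      ≤ volume (⋃ m ∈ Finset.range (NN j),
          Ico ((m : ℝ) / NN j) ((m : ℝ) / NN j + 1 / NN (j + 1))) := measure_mono hsub
    _ ≤ ∑ m ∈ Finset.range (NN j),
          volume (Ico ((m : ℝ) / NN j) ((m : ℝ) / NN j + 1 / NN (j + 1))) :=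
        measure_biUnion_finset_le _ _
    _ = ∑ m ∈ Finset.range (NN j), ENNReal.ofReal (1 / NN (j + 1)) := by
        apply Finset.sum_congr rfl
        intro m _
        rw [Real.volume_Ico]; congr 1; ring
    _ = ENNReal.ofReal (1 / MM j) := by
        rw [Finset.sum_const, Finset.card_range, nsmul_eq_mul,
          ← ENNReal.ofReal_natCast, ← ENNReal.ofReal_mul (by positivity)]
        congr 1
        rw [hNN]; field_simp


lemma MM_inv_le (j : ℕ) : ENNReal.ofReal (1 / MM j) ≤ ENNReal.ofReal ((1 / 4) ^ (j + 1)) := by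
  apply ENNReal.ofReal_le_ofReal
  have h1 : (4 : ℝ) ^ (j + 1) ≤ MM j := by exact_mod_cast MM_ge j
  rw [div_pow, one_pow]
  exact one_div_le_one_div_of_le (by positivity) h1

/-- the measures of the digit sets are summable -/
lemma tsum_EE_ne_top :
    ∑' j, (volume.restrict (Ico (0 : ℝ) 1)) (EE (j + 1)) ≠ ⊤ := by
  have h1 : ∑' j, (volume.restrict (Ico (0 : ℝ) 1)) (EE (j + 1)) ≤
      ∑' j : ℕ, ENNReal.ofReal ((1 / 4) ^ (j + 1)) := by
    apply ENNReal.tsum_le_tsum
    intro j
    rw [Measure.restrict_apply (measurableSet_EE _)]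
    exact (volume_EE_le j).trans (MM_inv_le j)
  refine ne_top_of_le_ne_top ?_ h1
  rw [← ENNReal.ofReal_tsum_of_nonneg (fun n => by positivity)]
  · exact ENNReal.ofReal_ne_top
  · have := summable_geometric_of_lt_one (r := (1 / 4 : ℝ)) (by norm_num) (by norm_num)
    exact (summable_nat_add_iff 1).mpr this

lemma ae_GG : ∀ᵐ x ∂(volume.restrict (Ico (0 : ℝ) 1)), x ∈ GG := by
  have h := MeasureTheory.ae_eventually_notMem tsum_EE_ne_top
  filter_upwards [h] with x hx
  obtain ⟨n, hn⟩ := eventually_atTop.mp hx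
  classical
  -- the last `k ≤ n` with `x ∈ EE k`
  have hex : ∃ k, x ∈ EE k ∧ k ≤ n := ⟨0, mem_univ _, Nat.zero_le _⟩
  set k := Nat.findGreatest (fun k => x ∈ EE k) n with hk
  have hk1 : x ∈ EE k := by
    have : (fun k => x ∈ EE k) (Nat.findGreatest (fun k => x ∈ EE k) n) :=
      Nat.findGreatest_spec (P := fun k => x ∈ EE k) (m := 0) (Nat.zero_le n) (mem_univ _)
    exact this
  refine mem_iUnion.mpr ⟨k, mem_FF.mpr ⟨hk1, ?_⟩⟩
  intro l hl hxl
  by_cases hln : l ≤ n
  · exact Nat.findGreatest_is_greatest hl hln hxl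
  · obtain ⟨m, rfl⟩ : ∃ m, l = m + 1 := ⟨l - 1, by omega⟩
    exact hn m (by omega) hxl

/-! ### Integrability -/

lemma lintegral_uu (α : ℝ) (h1 : α < 1) :
    ∫⁻ x in Ico (0 : ℝ) 1, ENNReal.ofReal (|uu x| ^ α) < ⊤ := by
  have hle : ∀ᵐ x ∂(volume.restrict (Ico (0 : ℝ) 1)),
      ENNReal.ofReal (|uu x| ^ α) ≤
        ∑' k, (EE k).indicator (fun _ => ENNReal.ofReal ((hh k : ℝ) ^ α)) x := by
    filter_upwards [ae_GG] with x hx
    obtain ⟨k, hk⟩ := mem_iUnion.mp hx
    rw [uu_eq hk, abs_of_nonneg (Nat.cast_nonneg _)]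
    refine le_trans ?_ (ENNReal.le_tsum k)
    rw [indicator_of_mem (mem_FF.mp hk).1]
  calc ∫⁻ x in Ico (0 : ℝ) 1, ENNReal.ofReal (|uu x| ^ α)
      ≤ ∫⁻ x in Ico (0 : ℝ) 1,
          ∑' k, (EE k).indicator (fun _ => ENNReal.ofReal ((hh k : ℝ) ^ α)) x :=
        lintegral_mono_ae hle
    _ = ∑' k, ∫⁻ x in Ico (0 : ℝ) 1,
          (EE k).indicator (fun _ => ENNReal.ofReal ((hh k : ℝ) ^ α)) x := by
        rw [lintegral_tsum]
        intro k
        exact (measurable_const.indicator (measurableSet_EE k)).aemeasurable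
    _ = ∑' k, ENNReal.ofReal ((hh k : ℝ) ^ α) * volume (EE k ∩ Ico (0 : ℝ) 1) := by
        congr 1; ext k
        rw [lintegral_indicator_const (measurableSet_EE k),
          Measure.restrict_apply (measurableSet_EE _)]
    _ < ⊤ := by
        rw [tsum_eq_zero_add' ENNReal.summable]
        apply ENNReal.add_lt_top.mpr
        constructor
        · apply ENNReal.mul_lt_top ENNReal.ofReal_lt_top
          refine lt_of_le_of_lt (measure_mono inter_subset_right) ?_
          rw [Real.volume_Ico]; exact ENNReal.ofReal_lt_top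
        · have hterm : ∀ j, ENNReal.ofReal ((hh (j + 1) : ℝ) ^ α) *
              volume (EE (j + 1) ∩ Ico (0 : ℝ) 1) ≤
              ENNReal.ofReal ((AA j : ℝ) ^ ((j + 2) * α - (j + 1))) := by
            intro j
            have hA : (0 : ℝ) < AA j := by exact_mod_cast AA_pos j
            calc ENNReal.ofReal ((hh (j + 1) : ℝ) ^ α) * volume (EE (j + 1) ∩ Ico (0 : ℝ) 1)
                ≤ ENNReal.ofReal ((hh (j + 1) : ℝ) ^ α) * ENNReal.ofReal (1 / MM j) := by
                  gcongr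
                  exact volume_EE_le j
              _ = ENNReal.ofReal ((hh (j + 1) : ℝ) ^ α * (1 / MM j)) := by
                  rw [ENNReal.ofReal_mul (by positivity)]
              _ = _ := by
                  congr 1
                  rw [hh_succ]
                  unfold MM
                  push_cast
                  rw [Real.rpow_sub hA, one_div, div_eq_mul_inv]
                  congr 1
                  · rw [← Real.rpow_natCast, ← Real.rpow_mul hA.le]
                    congr 1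
                    push_cast; ring
                  · congr 1
                    rw [← Real.rpow_natCast]
                    congr 1
                    push_cast; ring
          refine lt_of_le_of_lt (ENNReal.tsum_le_tsum hterm) ?_
          rw [← ENNReal.ofReal_tsum_of_nonneg (fun n => by positivity)]
          · exact ENNReal.ofReal_lt_top
          · have hgeo : Summable (fun j : ℕ => (1 / 4 : ℝ) ^ (j + 1)) :=
              (summable_nat_add_iff 1).mpr
                (summable_geometric_of_lt_one (r := (1 / 4 : ℝ)) (by norm_num) (by norm_num))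
            apply Summable.of_norm_bounded_eventually_nat hgeo
            obtain ⟨J, hJ⟩ := exists_nat_ge (2 * α / (1 - α))
            filter_upwards [eventually_ge_atTop J] with j hj
            have hA : (0 : ℝ) < AA j := by exact_mod_cast AA_pos j
            have hA4 : (4 : ℝ) ^ (j + 1) ≤ AA j := by exact_mod_cast AA_ge j
            have hA1 : (1 : ℝ) ≤ AA j := by exact_mod_cast AA_pos j
            rw [Real.norm_of_nonneg (by positivity)]
            have hj' : 2 * α / (1 - α) ≤ j := hJ.trans (by exact_mod_cast hj)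
            have hj'' : 2 * α ≤ j * (1 - α) := by
              rwa [div_le_iff₀ (by linarith)] at hj'
            calc (AA j : ℝ) ^ ((j + 2) * α - (j + 1)) ≤ (AA j : ℝ) ^ (-1 : ℝ) := by
                  apply Real.rpow_le_rpow_of_exponent_le hA1
                  nlinarith
              _ = 1 / AA j := by rw [Real.rpow_neg_one, one_div]
              _ ≤ 1 / (4 : ℝ) ^ (j + 1) := one_div_le_one_div_of_le (by positivity) hA4
              _ = _ := by rw [div_pow, one_pow]

/-! ### Non-constancy -/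

lemma volume_tail_lt :
    volume ((⋃ j : ℕ, EE (j + 2)) ∩ Ico (0 : ℝ) 1) < ENNReal.ofReal (1 / 4) := by
  calc volume ((⋃ j : ℕ, EE (j + 2)) ∩ Ico (0 : ℝ) 1)
      = volume (⋃ j : ℕ, (EE (j + 2) ∩ Ico (0 : ℝ) 1)) := by rw [iUnion_inter]
    _ ≤ ∑' j : ℕ, volume (EE (j + 2) ∩ Ico (0 : ℝ) 1) := measure_iUnion_le _
    _ ≤ ∑' j : ℕ, ENNReal.ofReal ((1 / 16) * (1 / 4) ^ j) := by
        apply ENNReal.tsum_le_tsum
        intro j
        refine (volume_EE_le (j + 1)).trans ((MM_inv_le (j + 1)).trans ?_)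
        apply ENNReal.ofReal_le_ofReal
        apply le_of_eq
        ring
    _ = ENNReal.ofReal (1 / 12) := by
        have hs : Summable (fun j : ℕ => (1 / 16 : ℝ) * (1 / 4) ^ j) :=
          (summable_geometric_of_lt_one (r := (1 / 4 : ℝ)) (by norm_num)
            (by norm_num)).mul_left _
        rw [← ENNReal.ofReal_tsum_of_nonneg (fun n => by positivity) hs, tsum_mul_left,
          tsum_geometric_of_lt_one (by norm_num) (by norm_num)]
        norm_num
    _ < _ := by
        rw [ENNReal.ofReal_lt_ofReal_iff] <;> norm_num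

lemma mem_EE_one {x : ℝ} (hx : x ∈ Ico (0 : ℝ) 1) : x ∈ EE 1 ↔ x < 1 / 4 := by
  have hN : NN 1 = 4 := by rfl
  have hM : MM 0 = 4 := by rfl
  show ((MM 0 : ℕ) : ℤ) ∣ ⌊x * NN (0 + 1)⌋ ↔ x < 1 / 4
  rw [zero_add, hN, hM]
  push_cast
  have h0 : 0 ≤ ⌊x * 4⌋ := Int.floor_nonneg.mpr (by linarith [hx.1])
  have h1 : ⌊x * 4⌋ < 4 := by
    rw [Int.floor_lt]; push_cast; linarith [hx.2]
  constructor
  · intro h
    have h2 : ⌊x * 4⌋ = 0 := by omega
    rw [Int.floor_eq_zero_iff] at h2
    have := h2.2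
    linarith
  · intro h
    have h2 : ⌊x * 4⌋ = 0 := by
      rw [Int.floor_eq_zero_iff]
      constructor <;> linarith [hx.1]
    rw [h2]
    exact dvd_zero _

/-- `u = h_1 = 16` on a subset of `[0,1/4)` of positive measure, and `u = h_0 = 1` on a subset of
`[1/4,1)` of positive measure -/
lemma volume_pos_one : 0 < volume ({x | uu x = hh 1} ∩ Ico (0 : ℝ) 1) := by
  have hsub : Ico (0 : ℝ) (1 / 4) \ ((⋃ j : ℕ, EE (j + 2)) ∩ Ico (0 : ℝ) 1) ⊆
      {x | uu x = hh 1} ∩ Ico (0 : ℝ) 1 := by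
    rintro x ⟨hx, hx'⟩
    have hx1 : x ∈ Ico (0 : ℝ) 1 := ⟨hx.1, by linarith [hx.2]⟩
    have hnot : ∀ j : ℕ, x ∉ EE (j + 2) := by
      intro j hj
      exact hx' ⟨mem_iUnion.mpr ⟨j, hj⟩, hx1⟩
    refine ⟨uu_eq (mem_FF.mpr ⟨(mem_EE_one hx1).mpr hx.2, ?_⟩), hx1⟩
    intro l hl
    obtain ⟨m, rfl⟩ : ∃ m, l = m + 2 := ⟨l - 2, by omega⟩
    exact hnot m
  refine lt_of_lt_of_le ?_ (measure_mono hsub)
  refine lt_of_lt_of_le ?_ (le_measure_sdiff)
  rw [Real.volume_Ico]
  apply tsub_pos_of_lt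
  have := volume_tail_lt
  simpa using this

lemma volume_pos_zero : 0 < volume ({x | uu x = hh 0} ∩ Ico (0 : ℝ) 1) := by
  have hsub : Ico (1 / 4 : ℝ) 1 \ ((⋃ j : ℕ, EE (j + 2)) ∩ Ico (0 : ℝ) 1) ⊆
      {x | uu x = hh 0} ∩ Ico (0 : ℝ) 1 := by
    rintro x ⟨hx, hx'⟩
    have hx1 : x ∈ Ico (0 : ℝ) 1 := ⟨by linarith [hx.1], hx.2⟩
    have hnot : ∀ j : ℕ, x ∉ EE (j + 2) := by
      intro j hj
      exact hx' ⟨mem_iUnion.mpr ⟨j, hj⟩, hx1⟩
    refine ⟨uu_eq (mem_FF.mpr ⟨mem_univ _, ?_⟩), hx1⟩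
    intro l hl
    rcases Nat.lt_or_ge l 2 with h | h
    · have : l = 1 := by omega
      subst this
      intro h
      have := (mem_EE_one hx1).mp h
      linarith [hx.1]
    · obtain ⟨m, rfl⟩ : ∃ m, l = m + 2 := ⟨l - 2, by omega⟩
      exact hnot m
  refine lt_of_lt_of_le ?_ (measure_mono hsub)
  refine lt_of_lt_of_le ?_ (le_measure_sdiff)
  rw [Real.volume_Ico]
  apply tsub_pos_of_lt
  refine volume_tail_lt.trans ?_
  rw [ENNReal.ofReal_lt_ofReal_iff] <;> norm_num

/-! ### Rescaling to a general interval -/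

lemma ae_Ico_iff {a b : ℝ} (hab : a < b) {P : ℝ → Prop} :
    (∀ᵐ x ∂(volume.restrict (Ico (0 : ℝ) 1)), P x) →
      ∀ᵐ x ∂(volume.restrict (Ioo a b)), P ((x - a) / (b - a)) := by
  intro h
  have hba : 0 < b - a := by linarith
  rw [ae_restrict_iff' measurableSet_Ico] at h
  rw [ae_restrict_iff' measurableSet_Ioo]
  have hq : Measure.QuasiMeasurePreserving (fun x : ℝ => (x - a) / (b - a)) volume volume := by
    have h1 : Measure.QuasiMeasurePreserving (fun x : ℝ => x - a) volume volume :=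
      (measurePreserving_sub_right volume a).quasiMeasurePreserving
    have h2 : Measure.QuasiMeasurePreserving (fun x : ℝ => x * (b - a)⁻¹) volume volume := by
      refine ⟨by fun_prop, ?_⟩
      have hne : (b - a)⁻¹ ≠ 0 := inv_ne_zero hba.ne'
      rw [Real.map_volume_mul_right hne]
      exact Measure.smul_absolutelyContinuous
    have h3 := h2.comp h1
    have h4 : ((fun x : ℝ => x * (b - a)⁻¹) ∘ fun x => x - a) =
        fun x : ℝ => (x - a) / (b - a) := by
      funext x; simp [div_eq_mul_inv]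
    rwa [h4] at h3
  have h5 := hq.ae h
  filter_upwards [h5] with x hx hx'
  apply hx
  constructor
  · apply div_nonneg <;> linarith [hx'.1]
  · rw [div_lt_one hba]; linarith [hx'.2]

/-- the rescaled function on `(a,b)` -/
noncomputable def ub (a b x : ℝ) : ℝ := (b - a) * uu ((x - a) / (b - a))


lemma ub_measurable (a b : ℝ) : Measurable (ub a b) := by
  unfold ub
  exact (measurable_uu.comp (by fun_prop)).const_mul _

/-- any a.e. statement on `(a,b)` for the rescaled variable transfers back -/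
lemma ae_Ioo_back {a b : ℝ} (hab : a < b) {P : ℝ → Prop}
    (h : ∀ᵐ x ∂(volume.restrict (Ioo a b)), P ((x - a) / (b - a))) :
    ∀ᵐ x ∂(volume.restrict (Ico (0 : ℝ) 1)), P x := by
  have hba : 0 < b - a := by linarith
  rw [ae_restrict_iff' measurableSet_Ioo] at h
  rw [ae_restrict_iff' measurableSet_Ico]
  have hq : Measure.QuasiMeasurePreserving (fun x : ℝ => x * (b - a) + a) volume volume := by
    have h1 : Measure.QuasiMeasurePreserving (fun x : ℝ => x + a) volume volume :=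
      (measurePreserving_add_right volume a).quasiMeasurePreserving
    have h2 : Measure.QuasiMeasurePreserving (fun x : ℝ => x * (b - a)) volume volume := by
      refine ⟨by fun_prop, ?_⟩
      rw [Real.map_volume_mul_right hba.ne']
      exact Measure.smul_absolutelyContinuous
    exact h1.comp h2
  have h5 := hq.ae h
  have h0 : ∀ᵐ x : ℝ ∂volume, x ≠ 0 := by
    simp [ae_iff]
  filter_upwards [h5, h0] with x hx hx0 hx'
  have hxpos : 0 < x := lt_of_le_of_ne hx'.1 (Ne.symm hx0)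
  have h6 := hx ⟨by nlinarith, by nlinarith [hx'.2]⟩
  have h7 : (x * (b - a) + a - a) / (b - a) = x := by field_simp; ring
  rwa [h7] at h6

lemma ub_nonconst {a b : ℝ} (hab : a < b) :
    ¬ ∃ c : ℝ, ∀ᵐ x ∂(volume.restrict (Ioo a b)), ub a b x = c := by
  rintro ⟨c, hc⟩
  have hba : 0 < b - a := by linarith
  have h1 : ∀ᵐ x ∂(volume.restrict (Ico (0 : ℝ) 1)), (b - a) * uu x = c :=
    ae_Ioo_back hab (P := fun x => (b - a) * uu x = c) hc
  have key : ∀ k, 0 < volume ({x | uu x = hh k} ∩ Ico (0 : ℝ) 1) → (b - a) * hh k = c := by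
    intro k hk
    by_contra hne
    rw [ae_restrict_iff' measurableSet_Ico, ae_iff] at h1
    apply hk.ne'
    refine measure_mono_null ?_ h1
    rintro x ⟨hx, hx'⟩ hx2
    apply hne
    rw [← hx2 hx']
    rw [show uu x = hh k from hx]
  have e0 := key 0 volume_pos_zero
  have e1 := key 1 volume_pos_one
  have h3 : (b - a) * (hh 0 : ℝ) = (b - a) * hh 1 := by rw [e0, e1]
  have h4 := mul_left_cancel₀ hba.ne' h3
  have h5 : hh 0 = hh 1 := by exact_mod_cast h4
  have h6 : hh 0 + 3 * aa 0 ≤ hh 1 := hh_mono_strict 0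
  have h7 := aa_pos 0
  omega

lemma ub_integrable {a b : ℝ} (hab : a < b) {α : ℝ} (h1 : α < 1) :
    ∫⁻ x in Ioo a b, ENNReal.ofReal (|ub a b x| ^ α) < ⊤ := by
  have hba : 0 < b - a := by linarith
  -- the function on the line
  set f : ℝ → ℝ≥0∞ := (Ico (0 : ℝ) 1).indicator
    (fun x => ENNReal.ofReal (|uu x| ^ α)) with hf
  have hfm : Measurable f :=
    (((measurable_uu.abs).pow_const α).ennreal_ofReal).indicator measurableSet_Ico
  have h2 : ∫⁻ x in Ioo a b, ENNReal.ofReal (|ub a b x| ^ α) ≤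
      ENNReal.ofReal ((b - a) ^ α) * ∫⁻ x, f ((x - a) * (b - a)⁻¹) := by
    have hfm2 : Measurable (fun x : ℝ => f ((x - a) * (b - a)⁻¹)) :=
      hfm.comp (g := f) (f := fun x : ℝ => (x - a) * (b - a)⁻¹) (by fun_prop)
    rw [← lintegral_const_mul _ hfm2, ← lintegral_indicator measurableSet_Ioo]
    apply lintegral_mono
    intro x
    by_cases hx : x ∈ Ioo a b
    · rw [indicator_of_mem hx]
      have hx' : (x - a) * (b - a)⁻¹ ∈ Ico (0 : ℝ) 1 := by
        rw [← div_eq_mul_inv]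
        constructor
        · apply div_nonneg <;> linarith [hx.1]
        · rw [div_lt_one hba]; linarith [hx.2]
      simp only [hf]
      rw [indicator_of_mem hx', ← ENNReal.ofReal_mul (by positivity)]
      apply ENNReal.ofReal_le_ofReal
      unfold ub
      rw [abs_mul, abs_of_pos hba, Real.mul_rpow hba.le (abs_nonneg _), div_eq_mul_inv]
    · rw [indicator_of_notMem hx]; exact bot_le
  refine lt_of_le_of_lt h2 (ENNReal.mul_lt_top ENNReal.ofReal_lt_top ?_)
  rw [lintegral_sub_right_eq_self (fun x => f (x * (b - a)⁻¹)) a]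
  have h3 : ∫⁻ x, f (x * (b - a)⁻¹) = ENNReal.ofReal (b - a) * ∫⁻ x, f x := by
    have hne : (b - a)⁻¹ ≠ 0 := inv_ne_zero hba.ne'
    have h4 := lintegral_map (μ := volume) hfm (g := fun x : ℝ => x * (b - a)⁻¹) (by fun_prop)
    rw [← h4, Real.map_volume_mul_right hne, lintegral_smul_measure, inv_inv, abs_of_pos hba]
    rfl
  rw [h3]
  apply ENNReal.mul_lt_top ENNReal.ofReal_lt_top
  rw [hf, lintegral_indicator measurableSet_Ico]
  exact lintegral_uu α h1

lemma ub_functional {a b : ℝ} (hab : a < b) :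
    ∫⁻ p in (Ioo a b) ×ˢ (Ioo a b),
      ENNReal.ofReal (om (|ub a b p.2 - ub a b p.1| / |p.2 - p.1|) / |p.2 - p.1|) < ⊤ := by
  have hba : 0 < b - a := by linarith
  have hG : ∀ᵐ x ∂(volume.restrict (Ioo a b)), (x - a) / (b - a) ∈ GG :=
    ae_Ico_iff hab (P := fun x => x ∈ GG) ae_GG
  have hprod : (volume.restrict ((Ioo a b) ×ˢ (Ioo a b)) : Measure (ℝ × ℝ)) =
      (volume.restrict (Ioo a b)).prod (volume.restrict (Ioo a b)) := by
    rw [Measure.prod_restrict]; rfl
  have hae : ∀ᵐ p ∂(volume.restrict ((Ioo a b) ×ˢ (Ioo a b)) : Measure (ℝ × ℝ)),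
      ENNReal.ofReal (om (|ub a b p.2 - ub a b p.1| / |p.2 - p.1|) / |p.2 - p.1|) ≤
        ENNReal.ofReal (1 / (b - a)) := by
    have h1 : ∀ᵐ p ∂(volume.restrict ((Ioo a b) ×ˢ (Ioo a b)) : Measure (ℝ × ℝ)),
        (p.1 - a) / (b - a) ∈ GG := by
      rw [hprod]
      exact Measure.quasiMeasurePreserving_fst.ae hG
    have h2 : ∀ᵐ p ∂(volume.restrict ((Ioo a b) ×ˢ (Ioo a b)) : Measure (ℝ × ℝ)),
        (p.2 - a) / (b - a) ∈ GG := by
      rw [hprod]
      exact Measure.quasiMeasurePreserving_snd.ae hG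
    have h3 : ∀ᵐ p ∂(volume.restrict ((Ioo a b) ×ˢ (Ioo a b)) : Measure (ℝ × ℝ)),
        p ∈ (Ioo a b) ×ˢ (Ioo a b) :=
      ae_restrict_mem (measurableSet_Ioo.prod measurableSet_Ioo)
    filter_upwards [h1, h2, h3] with p hp1 hp2 hp3
    obtain ⟨x, y⟩ := p
    simp only at hp1 hp2
    have hx : x ∈ Ioo a b := hp3.1
    have hy : y ∈ Ioo a b := hp3.2
    apply ENNReal.ofReal_le_ofReal
    show om (|ub a b y - ub a b x| / |y - x|) / |y - x| ≤ 1 / (b - a)
    set x' := (x - a) / (b - a) with hx'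
    set y' := (y - a) / (b - a) with hy'
    have hx01 : x' ∈ Ioo (0 : ℝ) 1 :=
      ⟨div_pos (by linarith [hx.1]) hba, by rw [hx', div_lt_one hba]; linarith [hx.2]⟩
    have hy01 : y' ∈ Ioo (0 : ℝ) 1 :=
      ⟨div_pos (by linarith [hy.1]) hba, by rw [hy', div_lt_one hba]; linarith [hy.2]⟩
    have hdiff : y - x = (b - a) * (y' - x') := by
      rw [hx', hy']; field_simp; ring
    have hudiff : ub a b y - ub a b x = (b - a) * (uu y' - uu x') := by
      unfold ub; ring
    have hquot : |ub a b y - ub a b x| / |y - x| = |uu y' - uu x'| / |y' - x'| := by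
      rw [hdiff, hudiff, abs_mul, abs_mul]
      exact mul_div_mul_left _ _ (abs_pos.mpr hba.ne').ne'
    rw [hquot]
    set s := |uu y' - uu x'| / |y' - x'| with hs
    have hsS : s ∈ SS := Or.inr ⟨x', ⟨hp1, hx01⟩, y', ⟨hp2, hy01⟩, rfl⟩
    have hs0 : 0 ≤ s := by positivity
    rw [om_of_mem hsS, abs_of_nonneg hs0]
    by_cases hz : uu y' = uu x'
    · have : s = 0 := by rw [hs, hz]; simp
      rw [this]
      simp only [zero_div]
      positivity
    · by_cases hxy : y' - x' = 0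
      · have : s = 0 := by rw [hs, hxy]; simp
        rw [this]
        simp only [zero_div]
        positivity
      · have hd : 0 < |y' - x'| := abs_pos.mpr hxy
        have hu1 : 1 ≤ |uu y' - uu x'| := by
          obtain ⟨i, hi⟩ := mem_iUnion.mp hp1
          obtain ⟨k, hk⟩ := mem_iUnion.mp hp2
          rw [uu_eq hi, uu_eq hk] at hz ⊢
          have hz' : (hh k : ℤ) ≠ hh i := by exact_mod_cast hz
          have h4 : (1 : ℤ) ≤ |(hh k : ℤ) - hh i| := Int.one_le_abs (sub_ne_zero.mpr hz')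
          exact_mod_cast h4
        have hspos : 0 < s := by rw [hs]; positivity
        have h5 : s / (1 + s ^ 2) ≤ 1 / s := by
          rw [div_le_div_iff₀ (by positivity) hspos]
          nlinarith
        have hyx : |y - x| = (b - a) * |y' - x'| := by
          rw [hdiff, abs_mul, abs_of_pos hba]
        have hyx0 : 0 < |y - x| := by rw [hyx]; positivity
        calc s / (1 + s ^ 2) / |y - x| ≤ (1 / s) / |y - x| := by gcongr
          _ = 1 / ((b - a) * |uu y' - uu x'|) := by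
              rw [hs, hyx]
              field_simp
          _ ≤ 1 / ((b - a) * 1) := by gcongr
          _ = 1 / (b - a) := by rw [mul_one]
  calc ∫⁻ p in (Ioo a b) ×ˢ (Ioo a b),
        ENNReal.ofReal (om (|ub a b p.2 - ub a b p.1| / |p.2 - p.1|) / |p.2 - p.1|)
      ≤ ∫⁻ _ in (Ioo a b) ×ˢ (Ioo a b), ENNReal.ofReal (1 / (b - a)) ∂(volume : Measure (ℝ × ℝ)) :=
        lintegral_mono_ae hae
    _ = ENNReal.ofReal (1 / (b - a)) * volume ((Ioo a b) ×ˢ (Ioo a b)) := by
        rw [setLIntegral_const]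
    _ < ⊤ := by
        apply ENNReal.mul_lt_top ENNReal.ofReal_lt_top
        rw [Measure.volume_eq_prod, Measure.prod_prod]
        apply ENNReal.mul_lt_top <;>
        · rw [Real.volume_Ioo]; exact ENNReal.ofReal_lt_top

end Pool.Agent.Lib.MP_1dbcb3_an
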